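import Pool.Agent.P.MP_f17f76_ag.S.All

namespace Pool.Agent.Results.MP_f17f76_ag.EAC

open Pool.Agent.P.MP_f17f76_ag

/-- Exponential-algebraic closedness for complex abelian varieties: every irreducible, free and
rotund `V ⊆ ℂ^g × A` meets the graph of `exp_A`. -/
theorem result {g N : ℕ} (A : AbVar g N) (I : Set (MvPolynomial (Fin g ⊕ Fin N) ℂ))
    (hirr : A.Irred (A.zeroSet I)) (hfree : A.Free (A.zeroSet I))
    (hrot : A.Rotund (A.zeroSet I)) :
    ∃ z : Fin g → ℂ, (z, z) ∈ A.zeroSet I :=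
  A.eac I hirr hfree hrot

end Pool.Agent.Results.MP_f17f76_ag.EAC
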