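import Pool.Agent.P.MP_f17f76_ag.X.Dens

namespace Pool.Agent.Results.MP_f17f76_ag.Exact

open Pool.Agent.P.MP_f17f76_ag

/-- For an irreducible free `V ⊆ ℂ^g × A` the following are equivalent: `V` is rotund; every
translate of the graph of `exp_A` meets `V`; every translate meets `V` in a Zariski dense set. -/
theorem result {g N : ℕ} (A : AbVar g N) (I : Set (MvPolynomial (Fin g ⊕ Fin N) ℂ))
    (hirr : A.Irred (A.zeroSet I)) (hfree : A.FreeQ (A.zeroSet I)) :
    [A.RotundQ (A.zeroSet I),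
      ∀ c : Fin g → ℂ, ∃ z : Fin g → ℂ, (z, z + c) ∈ A.zeroSet I,
      ∀ c : Fin g → ℂ,
        MvPolynomial.vanishingIdeal ℂ (A.cone (A.zeroSet I ∩ {q | q.2 = q.1 + c})) =
          MvPolynomial.vanishingIdeal ℂ (A.cone (A.zeroSet I))].TFAE := by
  tfae_have 1 → 3 := fun h => AbVar.dense_shift hirr hfree.free (h.rotund hirr)
  tfae_have 3 → 2 := fun h c => by
    obtain ⟨q, h1, h2⟩ := AbVar.Irred.nonempty (A := A)
      (V := A.zeroSet I ∩ {q | q.2 = q.1 + c}) (by rw [AbVar.Irred, h c]; exact hirr)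
    exact ⟨q.1, by rw [← show q.2 = q.1 + c from h2]; exact h1⟩
  tfae_have 2 → 1 := AbVar.rotundQ_of
  tfae_finish

end Pool.Agent.Results.MP_f17f76_ag.Exact
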